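import Mathlib
import Pool.Agent.H522.ExactRobust

/-!
# Primes of Cunningham orbits of the first kind at times without forbidden differences

The orbit of `n` under `x ↦ 2 x + 1` has the term `2 ^ t (n + 1) - 1` at time `t`; a Cunningham chain of the first kind
is a run of primes in such an orbit, i.e. `k` primes whose times are `0, 1, …, k - 1`. By the theorem of Maynard and Tao
every set of `exp ((4 + o(1)) k)` times contains `k` times at which the terms are prime for many `n`, but one knows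
nothing about these `k` times. We show that they can be chosen such that they avoid a LARGE set of forbidden
differences, or an arbitrary large family of forbidden configurations:

* (1) Let `T` be a finite set of times with `log |T| ≥ (4 + δ) k + C` and let `𝓔` be a family of nonempty sets with
  `∑_{E ∈ 𝓔} (C |E| k / |T|) ^ |E| ≤ k`. There is a `k`-element set `B ⊆ T` which contains no member of `𝓔`, such that
  the terms at all times in `B` are prime for many `n`. For a graph `𝓔` the condition says that at most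
  `c |T| ^ 2 / k` pairs are forbidden.
* (2) If the sum is at most `1`, then there is an exact pattern `B ⊆ T` with at least `k` elements which contains no
  member of `𝓔`: for many `n` the term at time `t` is prime exactly for `t ∈ B`.
* (3) Let `X ≥ exp ((4 + δ) k + C)` and let `D` contain at most `X / (C k)` of the numbers `1, …, X`. There is a set
  `B ∋ 0` of `k` times smaller than `X` without a difference in `D`, such that for many primes `p` all the terms of the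
  orbit of `p` at the times in `B` are prime.
* (4) If `D` contains at most `X / (C k ^ 2)` of the numbers `1, …, X`, then there is such a set `B ∋ 0` with at least
  `k` elements which is an exact pattern.

The density `1 / (C k)` in (3) is optimal up to the constant `C`, for trivial reasons: the multiples of `k - 1` have the
density `1 / (k - 1)`, and any `k` times have a difference which is such a multiple. No local condition on the times is
needed. Method: a bound for all the correlations of the primes in the measure of Maynard and Tao, and the deletion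
method (`Pool.Agent.H522`).
-/

set_option autoImplicit false

open Finset Filter

namespace Pool.Agent.Results.MP_c77da8_nt.ForbiddenDifferences

/-- `P n` holds for many `n`: for every `η > 0` there are arbitrarily large `x` such that it holds for at least
`x ^ (1 - η)` of the natural numbers `n ≤ x` -/
def Many (P : ℕ → Prop) : Prop := ∀ η : ℝ, 0 < η → ∃ᶠ x : ℝ in atTop,
  x ^ (1 - η) ≤ (Set.ncard {n : ℕ | (n : ℝ) ≤ x ∧ P n} : ℝ)

/-- the terms of the orbits of many `n` are prime at all times in `B` -/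
def PrimeTimes (B : Finset ℕ) : Prop := Many fun n => ∀ t ∈ B, (2 ^ t * (n + 1) - 1).Prime

/-- `B` is the exact set of the prime times, up to every time `W`, of the orbits of many `n` -/
def ExactPattern (B : Finset ℕ) : Prop :=
  ∀ W : ℕ, Many fun n => ∀ t ≤ W, ((2 ^ t * (n + 1) - 1).Prime ↔ t ∈ B)

theorem shift_eq (t s n : ℕ) : 2 ^ t * ((2 ^ s * n + (2 ^ s - 1)) + 1) - 1 = 2 ^ (t + s) * (n + 1) - 1 := by
  have h1 : 1 ≤ 2 ^ s := Nat.one_le_two_pow
  have h2 : 2 ^ s * n + (2 ^ s - 1) + 1 = 2 ^ s * (n + 1) := by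
    rw [Nat.mul_succ]; omega
  rw [h2, ← mul_assoc, ← pow_add]

theorem PrimeTimes.shift {B : Finset ℕ} (h : PrimeTimes B) (s : ℕ) (hs : ∀ t ∈ B, s ≤ t) :
    PrimeTimes (B.image (fun t => t - s)) := by
  refine Pool.Agent.H522.OftenP.map (2 ^ s) (2 ^ s - 1) (by positivity) ?_ h
  intro n hn t ht
  rw [Finset.mem_image] at ht
  obtain ⟨u, hu, rfl⟩ := ht
  rw [shift_eq]
  have := hs u hu
  have h2 : u - s + s = u := by omega
  rw [h2]
  exact hn u hu

theorem ExactPattern.shift {B : Finset ℕ} (h : ExactPattern B) (s : ℕ) (hs : ∀ t ∈ B, s ≤ t) :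
    ExactPattern (B.image (fun t => t - s)) := by
  intro W
  refine Pool.Agent.H522.OftenP.map (2 ^ s) (2 ^ s - 1) (by positivity) ?_ (h (W + s))
  intro n hn t ht
  rw [shift_eq, hn (t + s) (by omega), Finset.mem_image]
  constructor
  · intro h2
    exact ⟨t + s, h2, by omega⟩
  · rintro ⟨u, hu, hut⟩
    have := hs u hu
    have h2 : t + s = u := by omega
    rw [h2]
    exact hu

theorem shift_diff {B : Finset ℕ} {D : Set ℕ} {X k : ℕ} (hk : 1 ≤ k) (hBX : B ⊆ Finset.range X) (hB : k ≤ B.card)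
    (hD : ∀ a ∈ B, ∀ b ∈ B, b < a → a - b ∉ D) : ∃ s, (∀ t ∈ B, s ≤ t) ∧
    0 ∈ B.image (fun t => t - s) ∧ B.image (fun t => t - s) ⊆ Finset.range X ∧
    (B.image (fun t => t - s)).card = B.card ∧
    ∀ a ∈ B.image (fun t => t - s), ∀ b ∈ B.image (fun t => t - s), b < a → a - b ∉ D := by
  have hne : B.Nonempty := by rw [← Finset.card_pos]; omega
  have hle : ∀ t ∈ B, B.min' hne ≤ t := fun t ht => Finset.min'_le B t ht
  refine ⟨B.min' hne, hle, ?_, ?_, ?_, ?_⟩
  · exact Finset.mem_image.2 ⟨B.min' hne, Finset.min'_mem B hne, Nat.sub_self _⟩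
  · intro a ha
    rw [Finset.mem_image] at ha
    obtain ⟨u, hu, rfl⟩ := ha
    have := Finset.mem_range.1 (hBX hu)
    rw [Finset.mem_range]
    omega
  · apply Finset.card_image_of_injOn
    intro a ha b hb hab
    have e1 := hle a ha
    have e2 := hle b hb
    simp only at hab
    omega
  · intro a ha b hb hab
    rw [Finset.mem_image] at ha hb
    obtain ⟨u, hu, rfl⟩ := ha
    obtain ⟨v, hv, rfl⟩ := hb
    have e1 := hle u hu
    have e2 := hle v hv
    have e3 : u - B.min' hne - (v - B.min' hne) = u - v := by omega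
    rw [e3]
    exact hD u hu v hv (by omega)

/-- **Primes of Cunningham orbits at times without forbidden differences.** -/
theorem result (δ : ℝ) (hδ : 0 < δ) : ∃ C : ℝ, 0 < C ∧ ∀ k : ℕ, 1 ≤ k →
    -- (1) forbidden configurations
    (∀ T : Finset ℕ, (4 + δ) * k + C ≤ Real.log T.card → ∀ 𝓔 : Finset (Finset ℕ), (∀ E ∈ 𝓔, E.Nonempty) →
      ∑ E ∈ 𝓔, (C * (E.card : ℝ) * k / T.card) ^ E.card ≤ k →
      ∃ B ⊆ T, B.card = k ∧ PrimeTimes B ∧ ∀ E ∈ 𝓔, ¬ E ⊆ B) ∧
    -- (2) exact patterns without forbidden configurations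
    (∀ T : Finset ℕ, (4 + δ) * k + C ≤ Real.log T.card → ∀ 𝓔 : Finset (Finset ℕ), (∀ E ∈ 𝓔, E.Nonempty) →
      ∑ E ∈ 𝓔, (C * (E.card : ℝ) * k / T.card) ^ E.card ≤ 1 →
      ∃ B ⊆ T, k ≤ B.card ∧ ExactPattern B ∧ ∀ E ∈ 𝓔, ¬ E ⊆ B) ∧
    -- (3) forbidden differences
    (∀ X : ℕ, Real.exp ((4 + δ) * k + C) ≤ X → ∀ D : Set ℕ, ((D ∩ Set.Icc 1 X).ncard : ℝ) ≤ X / (C * k) →
      ∃ B ⊆ Finset.range X, 0 ∈ B ∧ B.card = k ∧ PrimeTimes B ∧ ∀ a ∈ B, ∀ b ∈ B, b < a → a - b ∉ D) ∧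
    -- (4) exact patterns without forbidden differences
    (∀ X : ℕ, Real.exp ((4 + δ) * k + C) ≤ X → ∀ D : Set ℕ,
      ((D ∩ Set.Icc 1 X).ncard : ℝ) ≤ X / (C * (k : ℝ) ^ 2) →
      ∃ B ⊆ Finset.range X, 0 ∈ B ∧ k ≤ B.card ∧ ExactPattern B ∧ ∀ a ∈ B, ∀ b ∈ B, b < a → a - b ∉ D) := by
  classical
  obtain ⟨C₁, hC₁, h1⟩ := Pool.Agent.H522.robust_coreG δ hδ
  obtain ⟨C₂, hC₂, h2⟩ := Pool.Agent.H522.iso_coreG δ hδ
  have hsm := Pool.Agent.H522.hasSM_E (fun t : ℕ => 2 ^ t) (fun t => 2 ^ t - 1)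
  have hform : ∀ t n : ℕ, 2 ^ t * n + (2 ^ t - 1) = 2 ^ t * (n + 1) - 1 := by
    intro t n
    have h1 : 1 ≤ 2 ^ t := Nat.one_le_two_pow
    rw [Nat.mul_succ]
    omega
  have hex : ∀ P : Finset ℕ, Pool.Agent.H522.ExactL (fun t : ℕ => 2 ^ t) (fun t => 2 ^ t - 1) P →
      ExactPattern P := by
    intro P hP W η hη
    refine (hP (Finset.range (W + 1)) η hη).mono fun x hx => hx.trans ?_
    have h1 : {n : ℕ | (n : ℝ) ≤ x ∧ ∀ i ∈ Finset.range (W + 1), ((2 ^ i * n + (2 ^ i - 1)).Prime ↔ i ∈ P)} ⊆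
        {n : ℕ | (n : ℝ) ≤ x ∧ ∀ t ≤ W, ((2 ^ t * (n + 1) - 1).Prime ↔ t ∈ P)} := by
      rintro n ⟨hn1, hn2⟩
      refine ⟨hn1, fun t ht => ?_⟩
      rw [← hform]
      exact hn2 t (Finset.mem_range.2 (by omega))
    exact_mod_cast Set.ncard_le_ncard h1 (Pool.Agent.H522.finite_le _ x)
  have hpt : ∀ P P' : Finset ℕ, ExactPattern P → P' ⊆ P → PrimeTimes P' := by
    intro P P' hP hPP
    refine Pool.Agent.H522.OftenP.mono ?_ (hP (P.sup id))
    intro n hn t ht
    exact (hn t (Finset.le_sup (f := id) (hPP ht))).2 (hPP ht)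
  obtain ⟨C, hC⟩ : ∃ C : ℝ, C = C₁ + C₂ + 4 * C₁ ^ 2 + 4 * C₂ ^ 2 := ⟨_, rfl⟩
  have hsq1 := sq_nonneg C₁
  have hsq2 := sq_nonneg C₂
  have hC1 : C₁ ≤ C := by rw [hC]; linarith
  have hC2 : C₂ ≤ C := by rw [hC]; linarith
  have hC3 : 4 * C₁ ^ 2 ≤ C := by rw [hC]; linarith
  have hC4 : 4 * C₂ ^ 2 ≤ C := by rw [hC]; linarith
  have hC0 : 0 < C := by linarith
  have key1 : ∀ k : ℕ, 1 ≤ k → ∀ T : Finset ℕ, (4 + δ) * k + C ≤ Real.log T.card →
      ∀ 𝓔 : Finset (Finset ℕ), (∀ E ∈ 𝓔, E.Nonempty) →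
      ∑ E ∈ 𝓔, (C₁ * (E.card : ℝ) * k / T.card) ^ E.card ≤ k →
      ∃ B ⊆ T, B.card = k ∧ PrimeTimes B ∧ ∀ E ∈ 𝓔, ¬ E ⊆ B := by
    intro k hk T hT 𝓔 hne hsum
    obtain ⟨B, B', hB1, hB2, hB3, hB4, hB5⟩ := h1 ℕ _ _ hsm k T hk (Pool.Agent.H522.okE_first T)
      (by linarith) 𝓔 hne hsum
    exact ⟨B', hB3.trans hB2, hB4, hpt B B' (hex B hB1) hB3, hB5⟩
  have key2 : ∀ k : ℕ, 1 ≤ k → ∀ T : Finset ℕ, (4 + δ) * k + C ≤ Real.log T.card →
      ∀ 𝓔 : Finset (Finset ℕ), (∀ E ∈ 𝓔, E.Nonempty) →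
      ∑ E ∈ 𝓔, (C₂ * (E.card : ℝ) * k / T.card) ^ E.card ≤ 1 →
      ∃ B ⊆ T, k ≤ B.card ∧ ExactPattern B ∧ ∀ E ∈ 𝓔, ¬ E ⊆ B := by
    intro k hk T hT 𝓔 hne hsum
    obtain ⟨B, hB1, hB2, hB3, hB4⟩ := h2 ℕ _ _ hsm k T hk (Pool.Agent.H522.okE_first T)
      (by linarith) 𝓔 hne hsum
    exact ⟨B, hB1, hB2, hex B hB3, hB4⟩
  have hmono : ∀ (C' : ℝ), 0 < C' → C' ≤ C → ∀ (k : ℕ) (T : Finset ℕ) (𝓔 : Finset (Finset ℕ)),
      ∑ E ∈ 𝓔, (C' * (E.card : ℝ) * k / T.card) ^ E.card ≤ ∑ E ∈ 𝓔, (C * (E.card : ℝ) * k / T.card) ^ E.card := by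
    intro C' hC'0 hC' k T 𝓔
    refine Finset.sum_le_sum fun E _ => ?_
    apply pow_le_pow_left₀ (by positivity)
    apply div_le_div_of_nonneg_right _ (Nat.cast_nonneg _)
    apply mul_le_mul_of_nonneg_right _ (Nat.cast_nonneg _)
    exact mul_le_mul_of_nonneg_right hC' (Nat.cast_nonneg _)
  refine ⟨C, hC0, fun k hk => ⟨?_, ?_, ?_, ?_⟩⟩
  · intro T hT 𝓔 hne hsum
    exact key1 k hk T hT 𝓔 hne ((hmono C₁ hC₁ hC1 k T 𝓔).trans hsum)
  · intro T hT 𝓔 hne hsum
    exact key2 k hk T hT 𝓔 hne ((hmono C₂ hC₂ hC2 k T 𝓔).trans hsum)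
  · intro X hX D hD
    have hk' : (1 : ℝ) ≤ k := by exact_mod_cast hk
    have hX0 : (0 : ℝ) < X := lt_of_lt_of_le (Real.exp_pos _) hX
    obtain ⟨𝓔, hE1, hE2, hE3⟩ := Pool.Agent.H522.prsN D X
    obtain ⟨B, hB1, hB2, hB3, hB4⟩ := key1 k hk (Finset.range X)
      (by rw [Finset.card_range]; exact (Real.le_log_iff_exp_le hX0).2 hX) 𝓔
      (fun E hE => by rw [← Finset.card_pos, hE1 E hE]; norm_num) (by
        rw [Pool.Agent.H522.fam_sumG _ _ _ _ hE1, Finset.card_range]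
        have h3 : (𝓔.card : ℝ) ≤ X * (Set.ncard (D ∩ Set.Icc 1 X) : ℝ) := by exact_mod_cast hE2
        have h4 : (𝓔.card : ℝ) ≤ X * (X / (C * k)) :=
          h3.trans (mul_le_mul_of_nonneg_left hD hX0.le)
        calc (𝓔.card : ℝ) * (2 * C₁ * k / X) ^ 2 ≤ (X * (X / (C * k))) * (2 * C₁ * k / X) ^ 2 :=
              mul_le_mul_of_nonneg_right h4 (by positivity)
          _ = (4 * C₁ ^ 2 / C) * k := by field_simp; ring
          _ ≤ 1 * k := by
              apply mul_le_mul_of_nonneg_right _ (by linarith)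
              rw [div_le_one hC0]
              exact hC3
          _ = k := one_mul _)
    obtain ⟨s, hs1, hs2, hs3, hs4, hs5⟩ := shift_diff hk hB1 hB2.ge (hE3 B hB1 hB4)
    exact ⟨_, hs3, hs2, hs4.trans hB2, hB3.shift s hs1, hs5⟩
  · intro X hX D hD
    have hk' : (1 : ℝ) ≤ k := by exact_mod_cast hk
    have hX0 : (0 : ℝ) < X := lt_of_lt_of_le (Real.exp_pos _) hX
    obtain ⟨𝓔, hE1, hE2, hE3⟩ := Pool.Agent.H522.prsN D X
    obtain ⟨B, hB1, hB2, hB3, hB4⟩ := key2 k hk (Finset.range X)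
      (by rw [Finset.card_range]; exact (Real.le_log_iff_exp_le hX0).2 hX) 𝓔
      (fun E hE => by rw [← Finset.card_pos, hE1 E hE]; norm_num) (by
        rw [Pool.Agent.H522.fam_sumG _ _ _ _ hE1, Finset.card_range]
        have h3 : (𝓔.card : ℝ) ≤ X * (Set.ncard (D ∩ Set.Icc 1 X) : ℝ) := by exact_mod_cast hE2
        have h4 : (𝓔.card : ℝ) ≤ X * (X / (C * (k : ℝ) ^ 2)) :=
          h3.trans (mul_le_mul_of_nonneg_left hD hX0.le)
        calc (𝓔.card : ℝ) * (2 * C₂ * k / X) ^ 2 ≤ (X * (X / (C * (k : ℝ) ^ 2))) * (2 * C₂ * k / X) ^ 2 :=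
              mul_le_mul_of_nonneg_right h4 (by positivity)
          _ = 4 * C₂ ^ 2 / C := by field_simp; ring
          _ ≤ 1 := by
              rw [div_le_one hC0]
              exact hC4)
    obtain ⟨s, hs1, hs2, hs3, hs4, hs5⟩ := shift_diff hk hB1 hB2 (hE3 B hB1 hB4)
    exact ⟨_, hs3, hs2, hB2.trans hs4.ge, hB3.shift s hs1, hs5⟩

end Pool.Agent.Results.MP_c77da8_nt.ForbiddenDifferences
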