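import Mathlib
import Pool.Agent.H536.OC.C21
import Pool.Agent.H536.OC.SCun

/-!
# A prime and a `P_3` at arbitrary times up to `log X` of a Cunningham sequence of the first kind

Let `c p t = 2 ^ t * (p + 1) - 1`: a chain of length `k` consists of the primes `c p 0, ..., c p (k - 1)`. For
every `k` there are `A` and `R` such that for ALL times `t_1, ..., t_k ≤ T` (not only consecutive ones, and for
every `T`), all `j, l` with `t_j ≠ t_l` and all `X ≥ 2 ^ (A (T + 1))` there are at least `X ^ 0.97` numbers `p ≤ X` for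
which `c p (t_j)` is a prime, `c p (t_l)` has at most three prime factors and all the numbers `c p (t_i)` have at most `R`
prime factors. So the times may be as large as a constant times `log X`.
-/

namespace Pool.Agent.Results.MP_c77da8_nt.PrimeAndP3AtAnyTimes

/-- the terms of the Cunningham sequence of the first kind generated by `p` -/
def c (p t : ℕ) : ℕ := 2 ^ t * (p + 1) - 1

theorem result : ∀ k : ℕ, ∃ A R : ℕ, ∀ (T : ℕ) (t : Fin k → ℕ), (∀ i, t i ≤ T) → ∀ j l : Fin k, t j ≠ t l →
    ∀ X : ℕ, 2 ^ (A * (T + 1)) ≤ X → ∃ S : Finset ℕ, (X : ℝ) ^ (97 / 100 : ℝ) ≤ S.card ∧ ∀ p ∈ S, p ≤ X ∧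
      (c p (t j)).Prime ∧ ArithmeticFunction.cardFactors (c p (t l)) ≤ 3 ∧
      ∀ i, ArithmeticFunction.cardFactors (c p (t i)) ≤ R :=
  Pool.Agent.H536.OC.cun1p Pool.Agent.H536.OC.U3c

end Pool.Agent.Results.MP_c77da8_nt.PrimeAndP3AtAnyTimes
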