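import Pool.Agent.H561.E3.K11

/-!
# Cunningham chains with variable steps: a prime followed by products of exactly two primes

A Cunningham chain of the first kind is `p`, `2 p + 1`, `2 (2 p + 1) + 1`, …. Let the steps vary: for integers `d_1, …, d_k` let
`c_0 = p`, `c_i = 2 c_(i-1) + d_i` (`1 ≤ i ≤ k`).

For every `k ≥ 1` and `ε > 0` there is `η > 0` such that for all `A` the following holds for all large `H` and all `D`. In every box
`[b_1, b_1 + H) × … × [b_k, b_k + H)` contained in `[-D, D] ^ k`, all the `d` without a local obstruction (no prime divides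
`c_0 c_1 ⋯ c_k` for all `p`), except at most `H ^ k / (log H) ^ A`, have the following property: for ALL `x` with
`D (log x) ^ (k + 3) ≤ x ≤ exp ((log H) ^ (1 + η))` the number of the primes `p ≤ x` for which all of `c_1, …, c_k` are products of
two primes is

`∏_q (1 - 1 / q) ^ (-(k + 1)) (1 - ω(q) / q) * x * (log log x) ^ k / (log x) ^ (k + 1)`

up to a relative error of at most `ε` (`ω(q)` is the number of the `n` modulo `q` with `c_0 ⋯ c_k ≡ 0`).

Proof: `Pool.Agent.H561.E3`.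
-/

set_option autoImplicit false

namespace Pool.Agent.Results.MP_c77da8_nt.SemiprimeChains

open Finset Filter

/-- `m` is the product of two primes -/
def Semiprime (m : ℤ) : Prop := ∃ p q : ℕ, p.Prime ∧ q.Prime ∧ m = p * q

/-- the chain `c_0 = n`, `c_i = 2 c_(i-1) + d_i` for `1 ≤ i ≤ k` (continued with `d_i = 1` for `i > k`) -/
def chain {k : ℕ} (d : Fin k → ℤ) (n : ℤ) : ℕ → ℤ
  | 0 => n
  | i + 1 => 2 * chain d n i + (if h : i < k then d ⟨i, h⟩ else 1)

open Classical in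
/-- the number of the primes `p ≤ x` such that `c_1, …, c_k` are products of two primes -/
noncomputable def count {k : ℕ} (d : Fin k → ℤ) (x : ℕ) : ℕ :=
  ((Icc 1 x).filter (fun p : ℕ => p.Prime ∧ ∀ i ∈ Icc 1 k, Semiprime (chain d p i))).card

open Classical in
/-- the number of the `n` modulo `q` with `c_0 c_1 ⋯ c_k ≡ 0` -/
noncomputable def ω {k : ℕ} (d : Fin k → ℤ) (q : ℕ) : ℕ :=
  ((range q).filter (fun n : ℕ => (q : ℤ) ∣ ∏ i ∈ range (k + 1), chain d n i)).card

/-- the singular series -/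
noncomputable def singularSeries {k : ℕ} (d : Fin k → ℤ) : ℝ :=
  ∏' q : Nat.Primes, (1 - 1 / ((q : ℕ) : ℝ))⁻¹ ^ (k + 1) * (1 - (ω d q : ℝ) / ((q : ℕ) : ℝ))

/-- the expected number -/
noncomputable def expected {k : ℕ} (d : Fin k → ℤ) (x : ℕ) : ℝ :=
  singularSeries d * x * Real.log (Real.log x) ^ k / Real.log x ^ (k + 1)

/-- no prime divides `c_0 c_1 ⋯ c_k` for all `n` -/
def Admissible {k : ℕ} (d : Fin k → ℤ) : Prop :=
  ∀ q : ℕ, q.Prime → ∃ n : ℕ, ¬ (q : ℤ) ∣ ∏ i ∈ range (k + 1), chain d n i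

open Classical in
/-- the admissible `d` of the box `[b_1, b_1 + H) × … × [b_k, b_k + H)` for which the formula fails, up to a relative error of at
most `ε`, for some `x` with `D ≤ x`, `D (log x) ^ (k + 3) ≤ x` and `log x ≤ L` -/
noncomputable def exceptional {k : ℕ} (ε L : ℝ) (D H : ℕ) (b : Fin k → ℤ) : Finset (Fin k → ℤ) :=
  (Fintype.piFinset (fun i => Ico (b i) (b i + H))).filter
    (fun d => Admissible d ∧ ¬ ∀ x : ℕ, D ≤ x → D * Real.log x ^ (k + 3) ≤ x → Real.log x ≤ L →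
      |(count d x : ℝ) - expected d x| ≤ ε * expected d x)

/-- the slopes -/
def sl (k : ℕ) (i : Fin k) : ℤ := 2 ^ ((i : ℕ) + 1)

/-- the shifts -/
def sh {k : ℕ} (d : Fin k → ℤ) (i : Fin k) : ℤ := chain d 0 ((i : ℕ) + 1)

lemma chain_eq {k : ℕ} (d : Fin k → ℤ) (n : ℤ) (i : ℕ) : chain d n i = 2 ^ i * n + chain d 0 i := by
  induction i with
  | zero => simp [chain]
  | succ i ih =>
    unfold chain
    rw [ih]
    ring

lemma chain_sl {k : ℕ} (d : Fin k → ℤ) (n : ℤ) (i : Fin k) : chain d n ((i : ℕ) + 1) = sl k i * n + sh d i := by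
  rw [chain_eq]
  rfl

lemma prod_chain {k : ℕ} (d : Fin k → ℤ) (n : ℤ) :
    ∏ i ∈ range (k + 1), chain d n i = n * ∏ i : Fin k, (sl k i * n + sh d i) := by
  rw [prod_range_succ', mul_comm]
  have h1 : chain d n 0 = n := rfl
  rw [h1, prod_range]
  congr 1
  apply prod_congr rfl
  intro i _
  exact chain_sl d n i

lemma ω_eq {k : ℕ} (d : Fin k → ℤ) (q : ℕ) : ω d q = Pool.Agent.H561.E2.omg (sl k) (sh d) q := by
  classical
  unfold ω Pool.Agent.H561.E2.omg
  congr 1
  ext n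
  simp only [mem_filter, prod_chain]

lemma ser_eq {k : ℕ} (d : Fin k → ℤ) : singularSeries d = Pool.Agent.H561.E2.singT (sl k) (sh d) := by
  rw [← Pool.Agent.H561.E2.singD_eq]
  unfold singularSeries Pool.Agent.H561.E2.singD
  apply tprod_congr
  intro q
  rw [ω_eq]

lemma omg_lt {s : ℕ} (a b : Fin s → ℤ) (p : ℕ) (hp : p.Prime) (h : ∃ n : ℕ, ¬ (p : ℤ) ∣ (n : ℤ) * ∏ i, (a i * (n : ℤ) + b i)) :
    Pool.Agent.H561.E2.omg a b p < p := by
  classical
  obtain ⟨n, hn⟩ := h
  have h1 : ¬ (p : ℤ) ∣ ((n % p : ℕ) : ℤ) * ∏ i, (a i * ((n % p : ℕ) : ℤ) + b i) := by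
    intro h2
    apply hn
    have h3 : (n : ℤ) ≡ ((n % p : ℕ) : ℤ) [ZMOD p] := by
      rw [Int.natCast_mod]
      exact (Int.mod_modEq _ _).symm
    have h4 : (n : ℤ) * ∏ i, (a i * (n : ℤ) + b i) ≡ ((n % p : ℕ) : ℤ) * ∏ i, (a i * ((n % p : ℕ) : ℤ) + b i) [ZMOD p] := by
      apply Int.ModEq.mul h3
      have h5 : ∀ T : Finset (Fin s), ∏ i ∈ T, (a i * (n : ℤ) + b i) ≡ ∏ i ∈ T, (a i * ((n % p : ℕ) : ℤ) + b i) [ZMOD p] := by
        intro T
        induction T using Finset.induction_on with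
        | empty => simp
        | insert x T hx ih =>
          rw [prod_insert hx, prod_insert hx]
          exact Int.ModEq.mul ((h3.mul_left _).add_right _) ih
      exact h5 univ
    exact (Int.ModEq.dvd_iff h4).2 h2
  have h2 : (range p).filter (fun n : ℕ => (p : ℤ) ∣ (n : ℤ) * ∏ i, (a i * (n : ℤ) + b i)) ⊂ range p := by
    rw [Finset.ssubset_iff_of_subset (filter_subset _ _)]
    refine ⟨n % p, mem_range.2 (Nat.mod_lt _ hp.pos), fun h3 => ?_⟩
    rw [mem_filter] at h3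
    exact h1 h3.2
  have h3 := card_lt_card h2
  rw [card_range] at h3
  unfold Pool.Agent.H561.E2.omg
  convert h3

/-- the shifts of an admissible chain are odd -/
lemma odd_of {k : ℕ} (d : Fin k → ℤ) (hd : Admissible d) (i : Fin k) : ¬ (2 : ℤ) ∣ sh d i := by
  obtain ⟨n, hn⟩ := hd 2 Nat.prime_two
  intro h1
  apply hn
  rw [prod_chain]
  apply Dvd.dvd.mul_left
  refine dvd_trans ?_ (dvd_prod_of_mem _ (mem_univ i))
  push_cast
  apply dvd_add _ h1
  unfold sl
  rw [pow_succ]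
  exact Dvd.dvd.mul_right (Dvd.intro_left _ rfl) _

lemma adm_of {k : ℕ} (d : Fin k → ℤ) (hd : Admissible d) :
    Pool.Agent.H561.E2.NDeg (sl k) (sh d) ∧ Pool.Agent.H561.E2.Adm (sl k) (sh d) := by
  refine ⟨⟨fun i h1 => ?_, fun i j hij h1 => ?_⟩, ?_⟩
  · apply odd_of d hd i
    rw [h1]
    exact dvd_zero _
  · unfold Pool.Agent.H561.E2.DD sl at h1
    have key : ∀ u v : Fin k, (u : ℕ) < v → (2 : ℤ) ^ ((v : ℕ) + 1) * sh d u = 2 ^ ((u : ℕ) + 1) * sh d v → False := by
      intro u v huv he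
      obtain ⟨w, hw⟩ : ∃ w, (v : ℕ) = u + (w + 1) := ⟨v - u - 1, by omega⟩
      apply odd_of d hd v
      have e1 : (2 : ℤ) ^ ((v : ℕ) + 1) = 2 ^ ((u : ℕ) + 1) * 2 ^ (w + 1) := by
        rw [← pow_add]
        congr 1
        omega
      rw [e1, mul_assoc] at he
      have h2 := mul_left_cancel₀ (pow_ne_zero _ (by norm_num : (2 : ℤ) ≠ 0)) he
      rw [← h2, pow_succ]
      exact Dvd.dvd.mul_right (Dvd.intro_left _ rfl) _
    rcases Nat.lt_trichotomy (i : ℕ) j with h2 | h2 | h2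
    · exact key i j h2 (by linarith)
    · exact hij (Fin.ext h2)
    · exact key j i h2 (by linarith)
  · rw [Pool.Agent.H561.E2.adm_iff]
    intro q hq
    apply omg_lt _ _ q hq
    obtain ⟨n, hn⟩ := hd q hq
    rw [prod_chain] at hn
    exact ⟨n, hn⟩

lemma cnt_eq {k : ℕ} (d : Fin k → ℤ) (x : ℕ) : count d x = Pool.Agent.H561.E3.CE (sl k) (sh d) 0 x := by
  classical
  unfold count Pool.Agent.H561.E3.CE
  congr 1
  ext n
  simp only [mem_filter, mem_Icc, mem_Ioc]
  constructor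
  · rintro ⟨⟨h1, h2⟩, h3, h4⟩
    refine ⟨⟨by omega, h2⟩, h3, fun i => ?_⟩
    have h5 := h4 ((i : ℕ) + 1) ⟨by omega, i.2⟩
    rw [chain_sl] at h5
    exact h5
  · rintro ⟨⟨h1, h2⟩, h3, h4⟩
    refine ⟨⟨by omega, h2⟩, h3, fun i hi => ?_⟩
    obtain ⟨j, hj⟩ : ∃ j : Fin k, i = (j : ℕ) + 1 := ⟨⟨i - 1, by omega⟩, by simp only; omega⟩
    rw [hj, chain_sl]
    exact h4 j

lemma sh_inj {k : ℕ} : Function.Injective (sh : (Fin k → ℤ) → (Fin k → ℤ)) := by
  intro d e h
  have h1 : ∀ i : ℕ, i ≤ k → chain d 0 i = chain e 0 i := by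
    intro i hi
    rcases Nat.eq_zero_or_pos i with h2 | h2
    · subst h2; rfl
    · obtain ⟨j, hj⟩ : ∃ j : Fin k, i = (j : ℕ) + 1 := ⟨⟨i - 1, by omega⟩, by simp only; omega⟩
      rw [hj]
      exact congrFun h j
  funext i
  have h2 := h1 ((i : ℕ) + 1) i.2
  have h3 := h1 i i.2.le
  unfold chain at h2
  rw [dif_pos i.2, dif_pos i.2, h3] at h2
  exact add_left_cancel h2

lemma chain_diff {k : ℕ} (d b : Fin k → ℤ) (H : ℕ) (h : ∀ i, b i ≤ d i ∧ d i ≤ b i + H) (i : ℕ) (hi : i ≤ k) :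
    0 ≤ chain d 0 i - chain b 0 i ∧ chain d 0 i - chain b 0 i ≤ (2 ^ i - 1) * H := by
  induction i with
  | zero => simp [chain]
  | succ i ih =>
    obtain ⟨h1, h2⟩ := ih (by omega)
    have h3 := h ⟨i, by omega⟩
    unfold chain
    rw [dif_pos (by omega), dif_pos (by omega)]
    constructor
    · linarith [h3.1]
    · have h4 : ((2 : ℤ) ^ (i + 1) - 1) * H = 2 * ((2 ^ i - 1) * H) + H := by ring
      rw [h4]
      linarith [h3.2]

lemma chain_abs {k : ℕ} (b : Fin k → ℤ) (M : ℤ) (h : ∀ i, |b i| ≤ M) (i : ℕ) (hi : i ≤ k) :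
    |chain b 0 i| ≤ (2 ^ i - 1) * M := by
  induction i with
  | zero => simp [chain]
  | succ i ih =>
    have h1 := ih (by omega)
    have h3 := h ⟨i, by omega⟩
    unfold chain
    rw [dif_pos (by omega)]
    have h4 := abs_add_le (2 * chain b 0 i) (b ⟨i, by omega⟩)
    have h5 : |2 * chain b 0 i| = 2 * |chain b 0 i| := by rw [abs_mul]; norm_num
    have h6 : ((2 : ℤ) ^ (i + 1) - 1) * M = 2 * ((2 ^ i - 1) * M) + M := by ring
    rw [h6]
    linarith

/-- **A prime and `k` products of two primes in Cunningham chains with variable steps, for almost all vectors of steps and all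
`x` at once.** -/
theorem result (k : ℕ) (hk : 0 < k) (ε : ℝ) (hε : 0 < ε) : ∃ η : ℝ, 0 < η ∧ ∀ A : ℕ, ∃ H₀ : ℕ, ∀ H : ℕ, H₀ ≤ H →
    ∀ (D : ℕ) (b : Fin k → ℤ), (∀ i, |b i| + H ≤ D) →
      ((exceptional ε (Real.log H ^ (1 + η)) D H b).card : ℝ) ≤ (H : ℝ) ^ k / Real.log H ^ A := by
  classical
  obtain ⟨η, hη0, _, hT⟩ := Pool.Agent.H561.E3.e2V k hk (sl k) (fun i => by
    unfold sl
    exact one_le_pow₀ (by norm_num)) ε hε
  refine ⟨η, hη0, fun A => ?_⟩
  obtain ⟨H₁, hT⟩ := hT (A + 1)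
  have hlogt : Tendsto (fun X : ℕ => Real.log (X : ℝ)) atTop atTop := Real.tendsto_log_atTop.comp tendsto_natCast_atTop_atTop
  obtain ⟨H₂, hH₂⟩ := Filter.eventually_atTop.1 (hlogt.eventually (eventually_ge_atTop ((((2 : ℝ) ^ k) ^ k) + 2 ^ k + 1)))
  refine ⟨max (max H₁ H₂) 3, fun H hH D b hb => ?_⟩
  have hL := hH₂ H (((le_max_right _ _).trans (le_max_left _ _)).trans hH)
  have hHH : H₁ ≤ H := ((le_max_left _ _).trans (le_max_left _ _)).trans hH
  have hH3 : 3 ≤ H := (le_max_right _ _).trans hH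
  have hHr : (3 : ℝ) ≤ H := by exact_mod_cast hH3
  have p1 : (0 : ℝ) < (2 : ℝ) ^ k := by positivity
  have p2 : (0 : ℝ) < ((2 : ℝ) ^ k) ^ k := by positivity
  have hL1 : 1 ≤ Real.log H := by linarith
  have hL2 : (2 : ℝ) ^ k ≤ Real.log H := by linarith
  have hL3 : ((2 : ℝ) ^ k) ^ k ≤ Real.log H := by linarith
  obtain ⟨H', hH'⟩ : ∃ H' : ℕ, H' = 2 ^ k * H := ⟨_, rfl⟩
  have hHH' : H ≤ H' := by rw [hH']; exact Nat.le_mul_of_pos_left _ (by positivity)
  have hHr' : (H : ℝ) ≤ H' := by exact_mod_cast hHH'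
  have hlog' : Real.log H ≤ Real.log H' := Real.log_le_log (by linarith) hHr'
  have hDH : (H : ℤ) ≤ D := by
    have h1 := hb ⟨0, hk⟩
    have h2 := abs_nonneg (b ⟨0, hk⟩)
    linarith
  have hD0 := hT H' (hHH.trans hHH') (2 ^ k * D) (sh b) (by
    intro i
    have h1 : |sh b i| ≤ (2 ^ ((i : ℕ) + 1) - 1) * ((D : ℤ) - H) :=
      chain_abs b ((D : ℤ) - H) (fun j => by have := hb j; linarith) _ i.2
    have h2 : ((2 : ℤ) ^ ((i : ℕ) + 1) - 1) * ((D : ℤ) - H) ≤ 2 ^ k * ((D : ℤ) - H) := by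
      apply mul_le_mul_of_nonneg_right _ (by linarith)
      have h3 : (2 : ℤ) ^ ((i : ℕ) + 1) ≤ 2 ^ k := pow_le_pow_right₀ (by norm_num) i.2
      linarith
    rw [hH']
    push_cast
    linarith)
  refine le_trans ?_ (hD0.trans ?_)
  · have hinj : (exceptional ε (Real.log H ^ (1 + η)) D H b).card ≤
        ((Fintype.piFinset (fun i : Fin k => Ico (sh b i) (sh b i + H'))).filter (fun h =>
        Pool.Agent.H561.E2.NDeg (sl k) h ∧ Pool.Agent.H561.E2.Adm (sl k) h ∧
        ¬ ∀ x : ℕ, ((2 ^ k * D : ℕ) : ℕ) ≤ x → ((2 ^ k * D : ℕ) : ℝ) * (Real.log x) ^ (k + 2) ≤ x → Real.log x ≤ (Real.log H') ^ (1 + η) →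
          |(Pool.Agent.H561.E3.CE (sl k) h 0 x : ℝ) -
            Pool.Agent.H561.E2.singT (sl k) h * x * Real.log (Real.log x) ^ k / (Real.log x) ^ (k + 1)| ≤
          ε * (Pool.Agent.H561.E2.singT (sl k) h * x * Real.log (Real.log x) ^ k / (Real.log x) ^ (k + 1)))).card := by
      apply card_le_card_of_injOn sh _ sh_inj.injOn
      intro d hd
      have hd' : d ∈ exceptional ε (Real.log H ^ (1 + η)) D H b := hd
      unfold exceptional at hd'
      rw [mem_filter, Fintype.mem_piFinset] at hd'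
      obtain ⟨h1, h2, h3⟩ := hd'
      rw [mem_coe, mem_filter, Fintype.mem_piFinset]
      refine ⟨fun i => ?_, (adm_of d h2).1, (adm_of d h2).2, fun h4 => h3 fun x x1 x2 x3 => ?_⟩
      · have h5 := chain_diff d b H (fun j => by
          have := h1 j
          rw [mem_Ico] at this
          exact ⟨this.1, this.2.le⟩) ((i : ℕ) + 1) i.2
        have h6 : ((2 : ℤ) ^ ((i : ℕ) + 1) - 1) * H ≤ (2 ^ k - 1) * H := by
          apply mul_le_mul_of_nonneg_right _ (by positivity)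
          have h3 : (2 : ℤ) ^ ((i : ℕ) + 1) ≤ 2 ^ k := pow_le_pow_right₀ (by norm_num) i.2
          linarith
        have h7 : (0 : ℤ) < H := by exact_mod_cast (by omega : 0 < H)
        rw [mem_Ico]
        unfold sh
        rw [hH']
        push_cast
        constructor
        · linarith [h5.1]
        · have h8 : ((2 : ℤ) ^ k - 1) * H = 2 ^ k * H - H := by ring
          linarith [h5.2]
      · have hDr : (H : ℝ) ≤ D := by exact_mod_cast hDH
        have hxr : (D : ℝ) ≤ x := by exact_mod_cast x1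
        have hlx : Real.log H ≤ Real.log x := Real.log_le_log (by linarith) (hDr.trans hxr)
        have hlx1 : 1 ≤ Real.log x := by linarith
        have hlx2 : (2 : ℝ) ^ k ≤ Real.log x := by linarith
        have hD00 : (0 : ℝ) ≤ D := by linarith
        have e1 : ((2 ^ k * D : ℕ) : ℝ) * (Real.log x) ^ (k + 2) ≤ x := by
          refine le_trans ?_ x2
          push_cast
          have h5 : Real.log x ^ (k + 3) = Real.log x * Real.log x ^ (k + 2) := by ring
          rw [h5]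
          have h6 : (2 : ℝ) ^ k * Real.log x ^ (k + 2) ≤ Real.log x * Real.log x ^ (k + 2) :=
            mul_le_mul_of_nonneg_right hlx2 (by positivity)
          have h7 := mul_le_mul_of_nonneg_left h6 hD00
          linarith
        have e2 : 2 ^ k * D ≤ x := by
          have h5 : ((2 ^ k * D : ℕ) : ℝ) * 1 ≤ ((2 ^ k * D : ℕ) : ℝ) * (Real.log x) ^ (k + 2) :=
            mul_le_mul_of_nonneg_left (one_le_pow₀ hlx1) (Nat.cast_nonneg _)
          have h6 : ((2 ^ k * D : ℕ) : ℝ) ≤ x := by linarith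
          exact_mod_cast h6
        have e3 : Real.log x ≤ Real.log H' ^ (1 + η) := x3.trans (Real.rpow_le_rpow (by linarith) hlog' (by linarith))
        have h5 := h4 x e2 e1 e3
        rw [cnt_eq]
        unfold expected
        rw [ser_eq]
        exact h5
    exact_mod_cast hinj
  · have hH0 : (0 : ℝ) < H := by linarith
    have hl0 : 0 < Real.log H := by linarith
    have hl0' : 0 < Real.log H' := by linarith
    have e1 : ((H' : ℕ) : ℝ) ^ k = ((2 : ℝ) ^ k) ^ k * (H : ℝ) ^ k := by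
      rw [hH']
      push_cast
      rw [mul_pow]
    rw [e1, div_le_div_iff₀ (by positivity) (by positivity)]
    have h1 : Real.log H ^ (A + 1) ≤ Real.log H' ^ (A + 1) := pow_le_pow_left₀ hl0.le hlog' _
    calc ((2 : ℝ) ^ k) ^ k * (H : ℝ) ^ k * Real.log H ^ A ≤ Real.log H * (H : ℝ) ^ k * Real.log H ^ A := by gcongr
      _ = (H : ℝ) ^ k * Real.log H ^ (A + 1) := by ring
      _ ≤ (H : ℝ) ^ k * Real.log H' ^ (A + 1) := by gcongr

end Pool.Agent.Results.MP_c77da8_nt.SemiprimeChains
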